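import Mathlib
import Pool.Agent.U19.HC.Small

/-!
# Exotic embeddings of complex hyperbolic spaces which almost preserve all distances

Q2 of MP_f019fe_gt asks for which `m > n ≥ 1` there is an exotic quasi-isometric embedding of the
complex hyperbolic space `ℂH^n` into `ℂH^m`. The answer is: for all of them. Moreover, for every
`ε > 0` the embedding can be chosen such that it increases the distances by at most `ε` (and
decreases no distance). The embedding is `x ↦ (√(1 - φ(x)²) x, φ(x), 0, ..., 0)` in the ball model,
where `φ(x) = t max (Re x_1) 0` for a small `t > 0`; as `φ` is real, the Hermitian products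
`1 - ⟨x, y⟩` are changed only by a factor between `1` and `1 + 3 t²`, up to the factors which
appear also in the denominator of the formula for the distance.
-/

set_option autoImplicit false

open Pool.Agent.Helper190.KHyp

namespace Pool.Agent.Results.MP_f019fe_gt.ExoticC

/-- **Answer to Q2.** For every `n ≥ 1` and every `m > n` there is an exotic quasi-isometric
embedding of complex hyperbolic `n`-space into complex hyperbolic `m`-space; for every `ε > 0` it
can be chosen such that `d (x, y) ≤ d (f x, f y) ≤ d (x, y) + ε` for all `x` and `y`. -/
theorem result : ∀ n m : ℕ, 1 ≤ n → n < m → ∀ ε : ℝ, 0 < ε →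
    ∃ f : HBall ℂ n → HBall ℂ m,
      (∀ x y, hdist x y ≤ hdist (f x) (f y) ∧ hdist (f x) (f y) ≤ hdist x y + ε) ∧
      IsQIEmbedding f ∧ IsExotic f :=
  fun n m hn hnm ε hε => Pool.Agent.U19.HC.exists_exotic_near ℂ n m hn hnm ε hε

end Pool.Agent.Results.MP_f019fe_gt.ExoticC
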